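import Mathlib
import Pool.Agent.H.MP_7b566e_nt.A

set_option autoImplicit false

namespace Pool.Agent.Results.MP_7b566e_nt.Fail

open PowerSeries

/-- the coefficient of `x ^ n` in the product of the `(1 - x ^ m ^ i) ^ (-k)` -/
noncomputable def A (m k n : ℕ) : ℤ :=
  coeff n (∏ i ∈ Finset.range (n + 1),
    (PowerSeries.mk fun j : ℕ => if m ^ i ∣ j then (1 : ℤ) else 0) ^ k)

theorem result : ∃ p u s k : ℕ, p.Prime ∧ 3 ≤ p ∧ 2 ≤ u ∧ u < p ∧ 0 < s ∧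
    (k : ℤ) = ((p : ℤ) - 1) * (u * (p : ℤ) ^ s - 1) ∧
    (∃ n : ℕ, u * p ^ s ≤ n ∧ emultiplicity (p : ℤ) (A p k n) ≠ 1 ∧
      emultiplicity (p : ℤ) (A p k n) ≠ 2) ∧
    (∃ n j j' : ℕ, 0 < n ∧ j < p ∧ j' < p ∧
      emultiplicity (p : ℤ) (A p k (p * n + j)) ≠ emultiplicity (p : ℤ) (A p k (p * n + j'))) := by
  have h1 : emultiplicity ((13 : ℕ) : ℤ) (A 13 768 221) = 4 := Pool.Agent.H.MP_7b566e_nt.e1
  have h2 : emultiplicity ((13 : ℕ) : ℤ) (A 13 768 222) = 3 := Pool.Agent.H.MP_7b566e_nt.e2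
  refine ⟨13, 5, 1, 768, by norm_num, by norm_num, by norm_num, by norm_num, by norm_num,
    by norm_num, ⟨221, by norm_num, ?_, ?_⟩, 17, 0, 1, by norm_num, by norm_num, by norm_num, ?_⟩
  · rw [h1]
    decide
  · rw [h1]
    decide
  · rw [show 13 * 17 + 0 = 221 from rfl, show 13 * 17 + 1 = 222 from rfl, h1, h2]
    decide

end Pool.Agent.Results.MP_7b566e_nt.Fail
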